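import Pool.Agent.Run7.h706.StrongD

set_option autoImplicit false

/-!
# Pointwise function spaces into strong d-spaces

For a suitable countable strong d-space `Y` and the discrete space `X` with two points the
space of continuous maps from `X` to `Y` with the topology of pointwise convergence, which is the
square of `Y`, is not a strong d-space. The space `Y` consists of a chain `c 0 < c 1 < ...` with a
top element `t`, of infinitely many maximal points `m n` and of two points `e`, `e'` below all `m n`;
a set is open if it is an upper set which with `t` contains some `c k`. In the square let `D` be the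
set of all `(c k, e)` and let `x = (c 0, e')`. The intersection of `↑x` and all `↑d` is the set of
all `(t, m n)`, and it is contained in the open union `U` of all `↑(c n) × {m n}`. But `↑x ∩ ↑(c k, e)`
contains `(c k, m (k + 1))`, which is not in `U`.
-/

namespace Pool.Agent.Results.MP_5f2357_gt.PointwiseMapsIntoStrongDSpace

open Set

/-- `up x`: the set of all `y` with `x` in the closure of `y`. -/
def up {X : Type*} [TopologicalSpace X] (x : X) : Set X := {y | x ∈ closure {y}}

/-- Strong d-spaces. -/
def IsStrongDSpace (X : Type*) [TopologicalSpace X] : Prop :=
  T0Space X ∧ ∀ D : Set X, D.Nonempty → DirectedOn (fun a b => a ∈ closure {b}) D →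
    ∀ (x : X) (U : Set X), IsOpen U → (⋂ d ∈ D, up d) ∩ up x ⊆ U → ∃ d ∈ D, up d ∩ up x ⊆ U

/-- There are a finite discrete space `X` and a countable strong d-space `Y` such that the set of
continuous maps from `X` to `Y`, as a subspace of the product `X → Y`, is not a strong d-space. -/
theorem result : ∃ (X Y : Type) (_ : TopologicalSpace X) (_ : TopologicalSpace Y),
    Finite X ∧ DiscreteTopology X ∧ T0Space X ∧ Countable Y ∧ IsStrongDSpace Y ∧
      ¬ IsStrongDSpace {f : X → Y // Continuous f} :=
  ⟨Bool, Run7.h706.StrongD.Z, inferInstance, inferInstance, inferInstance, inferInstance,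
    inferInstance, inferInstance, Run7.h706.StrongD.Z.isStrongDSpace,
    Run7.h706.StrongD.not_isStrongDSpace_maps⟩

end Pool.Agent.Results.MP_5f2357_gt.PointwiseMapsIntoStrongDSpace
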